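import Pool.Agent.W851.BE.Stm

/-!
Short vertical arcs are cut into at most four isometric pieces.
-/

open Polynomial Topology Filter MeasureTheory

namespace Pool.Agent.W358.BE.P

open Pool.Agent.W95.BK Pool.Agent.W851.BE

universe u

section
variable {K : Type u} [NontriviallyNormedField K] [IsUltrametricDist K]

theorem nice_empty (g : RMap K) (a : K) : nice g a ∅ :=
  ⟨fun t ht => absurd ht (Set.notMem_empty t),
    0, 1, one_pos, Or.inl fun t ht => absurd ht (Set.notMem_empty t)⟩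

theorem lemL (B : Finset ℝ) (x : ℝ) (hx : 0 < x) :
    ∃ u, 0 ≤ u ∧ u < x ∧ ∀ β ∈ B, ¬ (u < β ∧ β < x) := by
  have h1 : ∀ᶠ u in 𝓝[<] x, 0 < u ∧ u < x := Ioo_mem_nhdsLT hx
  have h2 : ∀ᶠ u in 𝓝[<] x, ∀ β ∈ B, ¬ (u < β ∧ β < x) := by
    rw [Finset.eventually_all]
    intro β _
    by_cases hb : β < x
    · have : ∀ᶠ u in 𝓝[<] x, β < u ∧ u < x := Ioo_mem_nhdsLT hb
      filter_upwards [this] with u hu h
      exact absurd h.1 (not_lt.mpr hu.1.le)
    · exact Eventually.of_forall fun u h => hb h.2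
  obtain ⟨u, hu1, hu2⟩ := (h1.and h2).exists
  exact ⟨u, hu1.1.le, hu1.2, hu2⟩

theorem lemR (B : Finset ℝ) (y : ℝ) :
    ∃ v, y < v ∧ ∀ β ∈ B, ¬ (y < β ∧ β < v) := by
  have h1 : ∀ᶠ v in 𝓝[>] y, y < v := self_mem_nhdsWithin
  have h2 : ∀ᶠ v in 𝓝[>] y, ∀ β ∈ B, ¬ (y < β ∧ β < v) := by
    rw [Finset.eventually_all]
    intro β _
    by_cases hb : y < β
    · have : ∀ᶠ v in 𝓝[>] y, y < v ∧ v < β := Ioo_mem_nhdsGT hb
      filter_upwards [this] with v hv h
      exact absurd h.2 (not_lt.mpr hv.2.le)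
    · exact Eventually.of_forall fun v h => hb h.1
  obtain ⟨v, hv1, hv2⟩ := (h1.and h2).exists
  exact ⟨v, hv1, hv2⟩

theorem eta (S : Finset K) (B : K → Finset ℝ) : ∃ η : ℝ, 1 < η ∧ ∀ q ∈ S, ∀ β ∈ B q,
    ∀ β' ∈ B q, 0 < β → β < β' → β * η < β' := by
  have h1 : ∀ᶠ η in 𝓝[>] (1 : ℝ), 1 < η := self_mem_nhdsWithin
  have h2 : ∀ᶠ η in 𝓝[>] (1 : ℝ), ∀ q ∈ S, ∀ β ∈ B q, ∀ β' ∈ B q, 0 < β → β < β' →
      β * η < β' := by
    rw [Finset.eventually_all]; intro q _
    rw [Finset.eventually_all]; intro β _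
    rw [Finset.eventually_all]; intro β' _
    by_cases hb : 0 < β ∧ β < β'
    · have h3 : Tendsto (fun η : ℝ => β * η) (𝓝[>] 1) (𝓝 (β * 1)) :=
        (tendsto_id.const_mul β).mono_left nhdsWithin_le_nhds
      rw [mul_one] at h3
      filter_upwards [h3.eventually_lt_const hb.2] with η h _ _
      exact h
    · exact Eventually.of_forall fun η h1 h2 => absurd ⟨h1, h2⟩ hb
  exact (h1.and h2).exists

theorem Qne (g : RMap K) : g.Q ≠ 0 := by
  intro h
  have h1 := g.cop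
  rw [h, isCoprime_zero_right] at h1
  have h2 := natDegree_eq_zero_of_isUnit h1
  have h3 := g.deg_eq
  have h4 := g.pos
  rw [h, h2, natDegree_zero] at h3
  simp at h3
  omega

end

section
variable {K : Type u} [NontriviallyNormedField K] [IsUltrametricDist K] [IsAlgClosed K]

theorem piece (hZT : S_ZT.{u}) (g : RMap K) (a q : K) (u v : ℝ) (J : Set ℝ)
    (hJ : J.OrdConnected) (hJs : J ⊆ Set.Ioo u v) (hJq : ∀ t ∈ J, 0 < t ∧ ‖a - q‖ ≤ t)
    (h : (∀ t, u < t → t < v → 2 ≤ localDeg g (zt q t)) ∨ nice g q (Set.Ioo u v)) :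
    ∃ I : Set ℝ, I.OrdConnected ∧ I ⊆ J ∧ nice g a I ∧
      ∀ t ∈ J, localDeg g (zt a t) = 1 → t ∈ I := by
  have hz : ∀ t ∈ J, zt a t = zt q t := fun t ht =>
    ((hZT K).1 a q t t (hJq t ht).1 (hJq t ht).1).mpr ⟨rfl, (hJq t ht).2⟩
  rcases h with h | ⟨h1, c, κ, hκ, h2⟩
  · refine ⟨∅, Set.ordConnected_empty, Set.empty_subset _, nice_empty g a, fun t ht h1 => ?_⟩
    have h3 := h t (hJs ht).1 (hJs ht).2
    rw [← hz t ht, h1] at h3
    exact absurd h3 (by norm_num)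
  · refine ⟨J, hJ, subset_rfl, ⟨fun t ht => ?_, c, κ, hκ, ?_⟩, fun t ht _ => ht⟩
    · rw [hz t ht]
      exact h1 t (hJs ht)
    · rcases h2 with h2 | h2
      · left; intro t ht
        rw [hz t ht]; exact h2 t (hJs ht)
      · right; intro t ht
        rw [hz t ht]; exact h2 t (hJs ht)

theorem part1 (hOFF : S_OFF.{u}) (hZT : S_ZT.{u}) (hLD : S_LDEX.{u}) (g : RMap K) (a : K)
    (s s' T : ℝ) (hs : 0 < s) (hT : ∀ w : K, g.Q.eval w = 0 → T ≤ ‖w - a‖) :
    ({t | t ∈ Set.Icc s s' ∧ t < T ∧ localDeg g (zt a t) = 1} : Set ℝ).OrdConnected ∧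
      nice g a {t | t ∈ Set.Icc s s' ∧ t < T ∧ localDeg g (zt a t) = 1} := by
  set I : Set ℝ := {t | t ∈ Set.Icc s s' ∧ t < T ∧ localDeg g (zt a t) = 1} with hI
  by_cases hne : I.Nonempty
  · obtain ⟨t0, ht0⟩ := hne
    have hT0 : 0 < T := lt_trans (lt_of_lt_of_le hs ht0.1.1) ht0.2.1
    obtain ⟨c, ψ, h1, h2, -⟩ := hOFF K g a T hT0 hT
    have hpos : ∀ t, 0 < t → 1 ≤ localDeg g (zt a t) := by
      intro t ht
      obtain ⟨m, hm, -, he⟩ := hLD K g (gauss a t ht) ((hZT K).2.2.1 a t ht)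
      rw [zt_pos a ht, he]; exact hm
    refine ⟨⟨?_⟩, ?_⟩
    · intro x hx y hy z hz
      have hzs : s ≤ z := hx.1.1.trans hz.1
      have hz0 : 0 < z := lt_of_lt_of_le hs hzs
      refine ⟨⟨hzs, hz.2.trans hy.1.2⟩, lt_of_le_of_lt hz.2 hy.2.1, ?_⟩
      have h3 := (h2 z y hz0 hz.2 hy.2.1).1
      have h4 := hpos z hz0
      rw [hy.2.2] at h3
      omega
    · refine ⟨fun t ht => ⟨lt_of_lt_of_le hs ht.1.1, ht.2.2⟩, c, ψ t0 / t0, ?_, Or.inl ?_⟩
      · exact div_pos (h1 t0 (lt_of_lt_of_le hs ht0.1.1) ht0.2.1).1 (lt_of_lt_of_le hs ht0.1.1)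
      · intro t ht
        have ht00 : 0 < t0 := lt_of_lt_of_le hs ht0.1.1
        have ht1 : 0 < t := lt_of_lt_of_le hs ht.1.1
        rw [(h1 t ht1 ht.2.1).2]
        congr 1
        rcases le_total t0 t with hle | hle
        · obtain ⟨-, h4, h5⟩ := h2 t0 t ht00 hle ht.2.1
          rw [ht0.2.2, pow_one] at h4
          rw [ht.2.2, pow_one] at h5
          rw [le_antisymm h5 h4]; ring
        · obtain ⟨-, h4, h5⟩ := h2 t t0 ht1 hle ht0.2.1
          rw [ht.2.2, pow_one] at h4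
          rw [ht0.2.2, pow_one] at h5
          have h6 := le_antisymm h5 h4
          rw [h6]; field_simp
  · rw [Set.not_nonempty_iff_eq_empty] at hne
    rw [hne]
    exact ⟨Set.ordConnected_empty, nice_empty g a⟩

end

theorem main : S_OFF.{u} → S_ZT.{u} → S_LDEX.{u} → S_BR.{u} → S_IMG.{u} → S_P.{u} := by
  classical
  intro hOFF hZT hLD hBR hIMG K _ _ _ g
  choose B hB using fun q : K => hBR K g q
  obtain ⟨η, hη1, hη⟩ := eta g.Q.roots.toFinset B
  refine ⟨η, hη1, fun a s hs => ?_⟩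
  have hroot : ∀ w : K, w ∈ g.Q.roots.toFinset ↔ g.Q.eval w = 0 := by
    intro w
    rw [Multiset.mem_toFinset, mem_roots (Qne g), IsRoot.def]
  have hsη : s ≤ s * η := by nlinarith
  by_cases hemp : g.Q.roots.toFinset.Nonempty
  · obtain ⟨q, hq, hmin⟩ := Finset.exists_min_image g.Q.roots.toFinset (fun w => ‖w - a‖) hemp
    have hq0 := (hroot q).mp hq
    set τ : ℝ := ‖q - a‖ with hτ
    have hτ' : ‖a - q‖ = τ := norm_sub_rev a q
    obtain ⟨h0a, h0b⟩ := part1 hOFF hZT hLD g a s (s * η) τ hs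
      (fun w hw => hmin w ((hroot w).mpr hw))
    set I0 : Set ℝ := {t | t ∈ Set.Icc s (s * η) ∧ t < τ ∧ localDeg g (zt a t) = 1} with hI0
    have hI0s : I0 ⊆ Set.Icc s (s * η) := fun t ht => ht.1
    obtain ⟨u, hu0, hus, hu⟩ := lemL (B q) s hs
    obtain ⟨v, hv0, hv⟩ := lemR (B q) (s * η)
    by_cases hβ : ∃ β ∈ B q, s ≤ β ∧ β ≤ s * η
    · obtain ⟨β, hβB, hβs, hβη⟩ := hβ
      have huniq : ∀ β' ∈ B q, s ≤ β' → β' ≤ s * η → β' = β := by
        intro β' hβ' h1 h2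
        rcases lt_trichotomy β' β with h3 | h3 | h3
        · have := hη q hq β' hβ' β hβB (lt_of_lt_of_le hs h1) h3
          nlinarith
        · exact h3
        · have := hη q hq β hβB β' hβ' (lt_of_lt_of_le hs hβs) h3
          nlinarith
      have hf1 : ∀ β' ∈ B q, ¬ (u < β' ∧ β' < β) := by
        rintro β' hβ' ⟨h1, h2⟩
        rcases lt_or_ge β' s with h3 | h3
        · exact hu β' hβ' ⟨h1, h3⟩
        · exact h2.ne (huniq β' hβ' h3 (h2.le.trans hβη))
      have hf2 : ∀ β' ∈ B q, ¬ (β < β' ∧ β' < v) := by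
        rintro β' hβ' ⟨h1, h2⟩
        rcases lt_or_ge (s * η) β' with h3 | h3
        · exact hv β' hβ' ⟨h3, h2⟩
        · exact h1.ne' (huniq β' hβ' (hβs.trans h1.le) h3)
      have hβ0 : 0 < β := lt_of_lt_of_le hs hβs
      obtain ⟨I1, h1a, h1b, h1c, h1d⟩ := piece hZT g a q u β (Set.Ico (max s τ) β)
        Set.ordConnected_Ico
        (fun t ht => ⟨lt_of_lt_of_le hus ((le_max_left _ _).trans ht.1), ht.2⟩)
        (fun t ht => ⟨lt_of_lt_of_le hs ((le_max_left _ _).trans ht.1),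
          hτ'.le.trans ((le_max_right _ _).trans ht.1)⟩)
        (hB q u β hu0 (lt_of_lt_of_le hus hβs) hf1)
      obtain ⟨I3, h3a, h3b, h3c, h3d⟩ := piece hZT g a q β v
        (Set.Ioc β (s * η) ∩ Set.Ici τ)
        (Set.ordConnected_Ioc.inter Set.ordConnected_Ici)
        (fun t ht => ⟨ht.1.1, lt_of_le_of_lt ht.1.2 hv0⟩)
        (fun t ht => ⟨lt_trans hβ0 ht.1.1, hτ'.le.trans ht.2⟩)
        (hB q β v hβ0.le (lt_of_le_of_lt hβη hv0) hf2)
      -- the middle point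
      have hI2 : ∃ I2 : Set ℝ, I2.OrdConnected ∧ I2 ⊆ Set.Icc s (s * η) ∧ nice g a I2 ∧
          (localDeg g (zt a β) = 1 → β ∈ I2) := by
        by_cases h1 : localDeg g (zt a β) = 1
        · obtain ⟨c, s', hs', he⟩ := hIMG K g a β hβ0
          refine ⟨{β}, Set.ordConnected_singleton, ?_, ⟨?_, c, s' / β, div_pos hs' hβ0, ?_⟩,
            fun _ => rfl⟩
          · rintro t rfl; exact ⟨hβs, hβη⟩
          · rintro t rfl; exact ⟨hβ0, h1⟩
          · left; rintro t rfl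
            rw [he]; congr 1; field_simp
        · exact ⟨∅, Set.ordConnected_empty, Set.empty_subset _, nice_empty g a,
            fun h => absurd h h1⟩
      obtain ⟨I2, h2a, h2b, h2c, h2d⟩ := hI2
      refine ⟨![I0, I1, I2, I3], ?_, ?_⟩
      · intro j
        fin_cases j
        · exact ⟨h0a, hI0s, h0b⟩
        · exact ⟨h1a, fun t ht => ⟨(le_max_left _ _).trans (h1b ht).1,
            (h1b ht).2.le.trans hβη⟩, h1c⟩
        · exact ⟨h2a, h2b, h2c⟩
        · exact ⟨h3a, fun t ht => ⟨hβs.trans (h3b ht).1.1.le, (h3b ht).1.2⟩, h3c⟩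
      · intro t ht hd
        rcases lt_or_ge t τ with hlt | hge
        · exact ⟨0, ht, hlt, hd⟩
        · rcases lt_trichotomy t β with h4 | h4 | h4
          · exact ⟨1, h1d t ⟨max_le ht.1 hge, h4⟩ hd⟩
          · refine ⟨2, ?_⟩
            subst h4
            exact h2d hd
          · exact ⟨3, h3d t ⟨⟨h4, ht.2⟩, hge⟩ hd⟩
    · push Not at hβ
      have hf : ∀ β' ∈ B q, ¬ (u < β' ∧ β' < v) := by
        rintro β' hβ' ⟨h1, h2⟩
        rcases lt_or_ge β' s with h3 | h3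
        · exact hu β' hβ' ⟨h1, h3⟩
        · exact hv β' hβ' ⟨hβ β' hβ' h3, h2⟩
      obtain ⟨I1, h1a, h1b, h1c, h1d⟩ := piece hZT g a q u v (Set.Icc (max s τ) (s * η))
        Set.ordConnected_Icc
        (fun t ht => ⟨lt_of_lt_of_le hus ((le_max_left _ _).trans ht.1),
          lt_of_le_of_lt ht.2 hv0⟩)
        (fun t ht => ⟨lt_of_lt_of_le hs ((le_max_left _ _).trans ht.1),
          hτ'.le.trans ((le_max_right _ _).trans ht.1)⟩)
        (hB q u v hu0 (hus.trans (lt_of_le_of_lt hsη hv0)) hf)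
      refine ⟨![I0, I1, ∅, ∅], ?_, ?_⟩
      · intro j
        fin_cases j
        · exact ⟨h0a, hI0s, h0b⟩
        · exact ⟨h1a, fun t ht => ⟨(le_max_left _ _).trans (h1b ht).1, (h1b ht).2⟩, h1c⟩
        · exact ⟨Set.ordConnected_empty, Set.empty_subset _, nice_empty g a⟩
        · exact ⟨Set.ordConnected_empty, Set.empty_subset _, nice_empty g a⟩
      · intro t ht hd
        rcases lt_or_ge t τ with hlt | hge
        · exact ⟨0, ht, hlt, hd⟩
        · exact ⟨1, h1d t ⟨max_le ht.1 hge, ht.2⟩ hd⟩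
  · rw [Finset.not_nonempty_iff_eq_empty] at hemp
    obtain ⟨h0a, h0b⟩ := part1 hOFF hZT hLD g a s (s * η) (s * η + 1) hs
      (fun w hw => by
        have := (hroot w).mpr hw
        rw [hemp] at this
        exact absurd this (Finset.notMem_empty w))
    set I0 : Set ℝ := {t | t ∈ Set.Icc s (s * η) ∧ t < s * η + 1 ∧ localDeg g (zt a t) = 1}
      with hI0
    refine ⟨![I0, ∅, ∅, ∅], ?_, ?_⟩
    · intro j
      fin_cases j
      · exact ⟨h0a, fun t ht => ht.1, h0b⟩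
      · exact ⟨Set.ordConnected_empty, Set.empty_subset _, nice_empty g a⟩
      · exact ⟨Set.ordConnected_empty, Set.empty_subset _, nice_empty g a⟩
      · exact ⟨Set.ordConnected_empty, Set.empty_subset _, nice_empty g a⟩
    · intro t ht hd
      exact ⟨0, ht, by linarith [ht.2], hd⟩

end Pool.Agent.W358.BE.P
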